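import Pool.Agent.NUT8.Rel

/-!
# NUT8/Lat (helper38): the normaliser at the rows `0 ^ a, l ^ c`: the exact lattice equation

* `b_real` : `b` is real at real rows;
* `bb a c` : the real number `b (0 ^ a, l ^ c)`;
* `bb_in`, `bb_ax` : the three term equations;
* `tau`, `tau_in`, `tau_ax`, `tau_symm`.
-/

set_option autoImplicit false

namespace Pool.Agent.NUT8

open Complex Finset Filter Topology
open Pool.Agent.NUBD
open Pool.Agent.NUF.Fr
open Pool.Agent.EXL.Fm (lam Dn)

/-! ### generic rows -/

/-- generic directions -/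
theorem dense_GP {m : ℕ} (z : Fin m → ℂ) : Dense {t : ℂ | ∀ i j : Fin m, i ≠ j →
    GP (z i + t * ((i : ℕ) : ℂ)) (z j + t * ((j : ℕ) : ℂ))} := by
  have hc : ∀ c : ℂ, (⋃ q : {q : Fin m × Fin m // q.1 ≠ q.2},
      {t : ℂ | sin ((z q.1.1 - z q.1.2 + c) + t * (((q.1.1 : ℕ) : ℂ) - ((q.1.2 : ℕ) : ℂ))) = 0}).Countable := by
    intro c
    refine Set.countable_iUnion fun q => countable_sin ?_
    rw [sub_ne_zero]
    exact_mod_cast fun e => q.2 (Fin.ext (by exact_mod_cast e))
  have hc5 := ((((hc 0).union (hc (-(3 * lam)))).union (hc (3 * lam))).union (hc (-(6 * lam)))).union (hc (6 * lam))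
  have hk : ∀ (t c : ℂ), t ∉ (⋃ q : {q : Fin m × Fin m // q.1 ≠ q.2},
      {t : ℂ | sin ((z q.1.1 - z q.1.2 + c) + t * (((q.1.1 : ℕ) : ℂ) - ((q.1.2 : ℕ) : ℂ))) = 0}) →
      ∀ i j : Fin m, i ≠ j → sin (z i + t * ((i : ℕ) : ℂ) - (z j + t * ((j : ℕ) : ℂ)) + c) ≠ 0 := by
    intro t c ht i j hij h
    rw [Set.mem_iUnion, not_exists] at ht
    refine ht ⟨(i, j), hij⟩ ?_
    rw [Set.mem_ofPred_eq, ← h]
    congr 1
    ring
  refine (hc5.dense_compl ℂ).mono fun t ht i j hij => ?_
  simp only [Set.mem_compl_iff, Set.mem_union, not_or] at ht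
  obtain ⟨⟨⟨⟨k0, k1⟩, k2⟩, k3⟩, k4⟩ := ht
  refine ⟨?_, ?_, hk t _ k2 i j hij, ?_, hk t _ k4 i j hij⟩
  · have := hk t _ k0 i j hij
    rwa [add_zero] at this
  · have := hk t _ k1 i j hij
    rwa [← sub_eq_add_neg] at this
  · have := hk t _ k3 i j hij
    rwa [← sub_eq_add_neg] at this

/-! ### reality -/

/-- `x → - conj x` -/
noncomputable def st (x : ℂ) : ℂ := -(starRingEnd ℂ) x

theorem conj_lam : (starRingEnd ℂ) lam = lam := by
  have h : (lam : ℂ) = ((Real.pi / 8 : ℝ) : ℂ) := by unfold lam; push_cast; ring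
  rw [h, Complex.conj_ofReal]

theorem conj_2 : (starRingEnd ℂ) 2 = 2 := Complex.conj_ofNat 2

theorem conj_3 : (starRingEnd ℂ) 3 = 3 := Complex.conj_ofNat 3

theorem st_sub (x : ℂ) : st (x - 3 * lam) = st x + 3 * lam := by
  unfold st
  rw [map_sub, map_mul, conj_lam, conj_3]
  ring

theorem st_add (x : ℂ) : st (x + 3 * lam) = st x - 3 * lam := by
  unfold st
  rw [map_add, map_mul, conj_lam, conj_3]
  ring

theorem conj_Dn (u : ℂ) : (starRingEnd ℂ) (Dn u) = Dn ((starRingEnd ℂ) u) := by
  rw [Dn_cos, Dn_cos, map_mul, ← Complex.cos_conj, ← Complex.cos_conj, map_sub, map_sub, map_mul, conj_lam,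
    conj_2]

theorem conj_c3 : (starRingEnd ℂ) c3 = c3 := by
  unfold c3
  rw [← Complex.cos_conj, map_mul, conj_lam, conj_3]

theorem TP.star {d : ℕ} {f : ℂ → ℂ} (hf : TP d f) : TP d fun x => (starRingEnd ℂ) (f (st x)) := by
  obtain ⟨P, hP, h1⟩ := hf
  refine ⟨P.map (starRingEnd ℂ), Polynomial.natDegree_map_le.trans hP, fun x => ?_⟩
  have e1 : (starRingEnd ℂ) (e2 (st x)) = e2 x := by
    unfold e2 st
    rw [map_div₀, ← Complex.exp_conj, map_neg, map_mul, map_mul, map_neg, Complex.conj_I, Complex.conj_conj,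
      conj_2]
    congr 2
    ring
  have e3 : (starRingEnd ℂ) (Polynomial.eval (e2 (st x)) P) = Polynomial.eval (e2 x) (P.map (starRingEnd ℂ)) := by
    rw [← e1, Polynomial.eval_map_apply]
  beta_reduce
  rw [h1, map_mul, e3, ← Complex.exp_conj]
  congr 2
  unfold st
  rw [map_mul, map_mul, map_neg, Complex.conj_I, Complex.conj_natCast, Complex.conj_conj]
  ring

theorem TP.sub {d : ℕ} {f g : ℂ → ℂ} (hf : TP d f) (hg : TP d g) : TP d fun x => f x - g x :=
  (hf.add (hg.cmul (-1))).of_eq rfl fun x => by ring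

theorem b_nil : b [] = 1 := BD_nil

theorem b_one (x : ℂ) : b [x] = 1 := by
  have h1 : b [x] = exp (I * (([] : List ℂ).length : ℂ) * x) * (BP (fun x : ℂ => x) []).eval (e2 x) := BD_cons_pol
  have h2 : (BP (fun x : ℂ => x) []).natDegree ≤ 0 := BP_deg
  have h3 : (BP (fun x : ℂ => x) []).coeff 0 = 1 := by
    have := BP_top (z := fun x : ℂ => x) (X := [])
    simp only [List.length_nil, List.map_nil, List.prod_nil, one_mul, BD_nil] at this
    exact this
  rw [h1, Polynomial.eq_C_of_natDegree_le_zero h2, h3]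
  simp

theorem conj_prod_Dn (L : List ℂ) (f : ℂ → ℂ) : (starRingEnd ℂ) (L.map fun k => Dn (f k)).prod =
    (L.map fun k => Dn ((starRingEnd ℂ) (f k))).prod := by
  induction L with
  | nil => simp
  | cons a L ih => rw [List.map_cons, List.map_cons, List.prod_cons, List.prod_cons, map_mul, ih, conj_Dn]

theorem pairwise_nodes {X : List ℂ} (h : X.Pairwise GP) :
    ((X.map fun y => y - 3 * lam) ++ X.map fun y => y + 3 * lam).Pairwise fun x y => sin (x - y) ≠ 0 := by
  rw [List.pairwise_append, List.pairwise_map, List.pairwise_map]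
  refine ⟨h.imp fun {a c} hac => ?_, h.imp fun {a c} hac => ?_, ?_⟩
  · rw [show a - 3 * lam - (c - 3 * lam) = a - c by ring]
    exact hac.1
  · rw [show a + 3 * lam - (c + 3 * lam) = a - c by ring]
    exact hac.1
  · intro x hx y hy
    obtain ⟨a, ha, rfl⟩ := List.mem_map.1 hx
    obtain ⟨c, hc, rfl⟩ := List.mem_map.1 hy
    rw [show a - 3 * lam - (c + 3 * lam) = a - c - 6 * lam by ring]
    by_cases e : a = c
    · rw [e, show c - c - 6 * lam = -(6 * lam) by ring]
      exact sin_ne_neg sin_6_ne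
    · have hs : ∀ {a c : ℂ}, GP a c → GP c a := by
        intro a c hac
        obtain ⟨k1, k2, k3, k4, k5⟩ := hac
        refine ⟨?_, ?_, ?_, ?_, ?_⟩
        · rw [show c - a = -(a - c) by ring]
          exact sin_ne_neg k1
        · rw [show c - a - 3 * lam = -(a - c + 3 * lam) by ring]
          exact sin_ne_neg k3
        · rw [show c - a + 3 * lam = -(a - c - 3 * lam) by ring]
          exact sin_ne_neg k2
        · rw [show c - a - 6 * lam = -(a - c + 6 * lam) by ring]
          exact sin_ne_neg k5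
        · rw [show c - a + 6 * lam = -(a - c - 6 * lam) by ring]
          exact sin_ne_neg k4
      have hR : ∀ x y : ℂ, (x ≠ y → GP x y) → (y ≠ x → GP y x) := fun x y hxy hne => hs (hxy fun e => hne e.symm)
      have _ : Std.Symm fun a c : ℂ => a ≠ c → GP a c := ⟨fun x y hxy => hR x y hxy⟩
      have himp : ∀ x y : ℂ, GP x y → x ≠ y → GP x y := fun _ _ hxy _ => hxy
      have h' : X.Pairwise fun a c : ℂ => a ≠ c → GP a c := List.Pairwise.imp (fun {x y} => himp x y) h
      have hall := List.Pairwise.forall_of_forall (fun x _ hne => absurd rfl hne) h'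
      exact (hall ha hc e).2.2.2.1

theorem b_star_gen : ∀ (n : ℕ) (L : List ℂ), L.length = n → L.Pairwise GP →
    (starRingEnd ℂ) (b (L.map st)) = b L := by
  intro n
  induction n using Nat.strong_induction_on with
  | _ n ih =>
    intro L hL hg
    rcases L with _ | ⟨p, X⟩
    · rw [List.map_nil, b_nil, map_one]
    rcases X with _ | ⟨q, Y⟩
    · rw [List.map_cons, List.map_nil, b_one, b_one, map_one]
    obtain ⟨X, hX⟩ : ∃ X, X = q :: Y := ⟨_, rfl⟩
    rw [← hX] at hg hL ⊢
    obtain ⟨hp, hg'⟩ := List.pairwise_cons.1 hg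
    have hlen : 1 ≤ X.length := by rw [hX, List.length_cons]; omega
    have hn : n = X.length + 1 := by rw [← hL, List.length_cons]
    have hT1 : TP X.length fun x => b (x :: X) := TP_b X
    have hT2 : TP X.length fun x => (starRingEnd ℂ) (b (st x :: X.map st)) := by
      have := (TP_b (X.map st)).star
      rwa [List.length_map] at this
    have hz := (hT2.sub hT1).zero ((X.map fun y => y - 3 * lam) ++ X.map fun y => y + 3 * lam)
      (pairwise_nodes hg') (by rw [List.length_append, List.length_map, List.length_map]; omega) ?_ p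
    · rw [List.map_cons]
      exact sub_eq_zero.1 hz
    · intro x hx
      rw [sub_eq_zero]
      rcases List.mem_append.1 hx with hx | hx
      · obtain ⟨y, hy, rfl⟩ := List.mem_map.1 hx
        have hperm := List.perm_cons_erase hy
        have hl : (X.erase y).length < n := by
          have := List.length_erase_le (a := y) (l := X)
          omega
        have h1 : b ((y - 3 * lam) :: X) = c3 * ((X.erase y).map fun k => Dn (y - k)).prod * b (X.erase y) := by
          rw [b_perm (hperm.cons _), b_lo]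
        have h2 : b (st (y - 3 * lam) :: X.map st) =
            c3 * ((X.erase y).map fun k => Dn (st k - st y)).prod * b ((X.erase y).map st) := by
          rw [b_perm ((hperm.map st).cons _), st_sub, List.map_cons, b_hi, List.map_map]
          rfl
        have h3 := ih _ hl (X.erase y) rfl (hg'.sublist (List.erase_sublist))
        rw [h1, h2, map_mul, map_mul, h3, conj_c3, conj_prod_Dn]
        congr 4
        funext k
        unfold st
        rw [map_sub, map_neg, map_neg, Complex.conj_conj, Complex.conj_conj]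
        congr 1
        ring
      · obtain ⟨y, hy, rfl⟩ := List.mem_map.1 hx
        have hperm := List.perm_cons_erase hy
        have hl : (X.erase y).length < n := by
          have := List.length_erase_le (a := y) (l := X)
          omega
        have h1 : b ((y + 3 * lam) :: X) = c3 * ((X.erase y).map fun k => Dn (k - y)).prod * b (X.erase y) := by
          rw [b_perm (hperm.cons _), b_hi]
        have h2 : b (st (y + 3 * lam) :: X.map st) =
            c3 * ((X.erase y).map fun k => Dn (st y - st k)).prod * b ((X.erase y).map st) := by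
          rw [b_perm ((hperm.map st).cons _), st_add, List.map_cons, b_lo, List.map_map]
          rfl
        have h3 := ih _ hl (X.erase y) rfl (hg'.sublist (List.erase_sublist))
        rw [h1, h2, map_mul, map_mul, h3, conj_c3, conj_prod_Dn]
        congr 4
        funext k
        unfold st
        rw [map_sub, map_neg, map_neg, Complex.conj_conj, Complex.conj_conj]
        congr 1
        ring

theorem list_finRange (L : List ℂ) : L = (List.finRange L.length).map fun i => L.get i := by
  simp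

theorem b_star (L : List ℂ) : (starRingEnd ℂ) (b (L.map st)) = b L := by
  set z : Fin L.length → ℂ := fun i => L.get i with hz
  have key := Continuous.ext_on (dense_GP z)
    (f := fun t : ℂ => (starRingEnd ℂ) (b (((List.finRange L.length).map fun i => z i + t * ((i : ℕ) : ℂ)).map st)))
    (g := fun t : ℂ => b ((List.finRange L.length).map fun i => z i + t * ((i : ℕ) : ℂ))) ?_ ?_ ?_
  · have h := congrFun key 0
    simp only [zero_mul, add_zero] at h
    rw [hz, ← list_finRange] at h
    exact h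
  · simp only [List.map_map, b_map]
    refine Complex.continuous_conj.comp (cont_BD fun k _ => ?_)
    unfold st
    simp only [Function.comp_apply]
    fun_prop
  · simp only [b_map]
    exact cont_BD fun k _ => by fun_prop
  · intro t ht
    refine b_star_gen _ _ rfl ?_
    rw [List.pairwise_map]
    exact (List.nodup_finRange _).imp fun {i j} hij => ht i j hij

theorem b_neg (L : List ℂ) : b (L.map fun x => -x) = b L := by
  rw [b_map]
  exact BD_neg (fun x : ℂ => x) L

theorem b_shift (c : ℂ) (L : List ℂ) : b (L.map fun x => x + c) = b L := by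
  rw [b_map]
  exact BD_shift (z := fun x : ℂ => x) (X := L) c

/-- **`b` is real at real rows** -/
theorem b_real (X : List ℝ) : (starRingEnd ℂ) (b (X.map fun x : ℝ => (x : ℂ))) = b (X.map fun x : ℝ => (x : ℂ)) := by
  have h1 := b_star (X.map fun x : ℝ => (x : ℂ))
  have h2 := b_neg (X.map fun x : ℝ => (x : ℂ))
  have h3 : (X.map fun x : ℝ => (x : ℂ)).map st = (X.map fun x : ℝ => (x : ℂ)).map fun x => -x := by
    rw [List.map_map, List.map_map]
    refine List.map_congr_left fun k _ => ?_
    rw [Function.comp_apply, Function.comp_apply, st, Complex.conj_ofReal]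
  rwa [h3, h2] at h1

/-! ### fusion -/

theorem b_fuse (w : ℂ) (Y : List ℂ) :
    b ((w - lam) :: (w + lam) :: Y) = cos (2 * lam) * (Y.map fun k => cos (w - k)).prod * b (w :: Y) := by
  set z : Option (Option ℂ) → ℂ := fun o => o.elim (w - lam) fun o' => o'.elim (w + lam) fun k => k with hz
  set z' : Option (Option ℂ) → ℂ := fun o => o.elim (w - lam) fun o' => o'.elim w fun k => k with hz'
  have h := BD_fuse (z := z) (z' := z') (p := none) (q := some none) (Y := Y.map fun k => some (some k))
    (by show w - lam = w + lam - 2 * lam; ring) (by show w = w + lam - lam; ring) (by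
      intro k hk
      obtain ⟨a, _, rfl⟩ := List.mem_map.1 hk
      rfl)
  rw [← b_map, ← b_map, List.map_map] at h
  simp only [List.map_cons, List.map_map] at h
  have e1 : Y.map (z ∘ fun k => some (some k)) = Y := by
    rw [show (z ∘ fun k => some (some k)) = id from rfl, List.map_id]
  have e3 : Y.map (z' ∘ fun k => some (some k)) = Y := by
    rw [show (z' ∘ fun k => some (some k)) = id from rfl, List.map_id]
  rw [e1, e3] at h
  exact h

/-! ### the rows `0 ^ a, l ^ c` -/

/-- the rows `0 ^ a, l ^ c` -/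
noncomputable def rw0 (a c : ℕ) : List ℂ := List.replicate a 0 ++ List.replicate c lam

/-- the value at the rows `0 ^ a, l ^ c` -/
noncomputable def bb (a c : ℕ) : ℝ := (b (rw0 a c)).re

theorem bb_coe (a c : ℕ) : ((bb a c : ℝ) : ℂ) = b (rw0 a c) := by
  have h := b_real (List.replicate a 0 ++ List.replicate c (Real.pi / 8))
  have e : (List.replicate a (0 : ℝ) ++ List.replicate c (Real.pi / 8)).map (fun x : ℝ => (x : ℂ)) = rw0 a c := by
    rw [List.map_append, List.map_replicate, List.map_replicate, rw0]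
    congr 2
    unfold lam
    push_cast
    ring
  rw [e] at h
  exact Complex.conj_eq_iff_re.1 h

theorem rw0_succ (a c : ℕ) : rw0 (a + 1) c = 0 :: rw0 a c := by
  rw [rw0, List.replicate_succ, List.cons_append, rw0]

theorem rw0_succ' (a c : ℕ) : (rw0 a (c + 1)).Perm (lam :: rw0 a c) := by
  rw [rw0, List.replicate_succ, rw0]
  exact List.perm_middle

theorem bb_symm (a c : ℕ) : bb a c = bb c a := by
  have h : b (rw0 a c) = b (rw0 c a) := by
    rw [← b_neg, ← b_shift lam, List.map_map]
    have e : (rw0 a c).map ((fun x => x + lam) ∘ fun x => -x) = List.replicate a lam ++ List.replicate c 0 := by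
      rw [rw0, List.map_append, List.map_replicate, List.map_replicate, Function.comp_apply, Function.comp_apply,
        neg_zero, zero_add, neg_add_cancel]
    rw [e]
    exact b_perm List.perm_append_comm
  unfold bb
  rw [h]

theorem prod_cos (a c : ℕ) : ((rw0 a c).map fun k => cos (0 - k)).prod = cos lam ^ c := by
  rw [rw0, List.map_append, List.prod_append, List.map_replicate, List.map_replicate, List.prod_replicate,
    List.prod_replicate, sub_zero, Complex.cos_zero, one_pow, one_mul, zero_sub, Complex.cos_neg]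

/-- fusion of `- l` and `l` -/
theorem b_fuse0 (a c : ℕ) : b (-lam :: lam :: rw0 a c) = cos (2 * lam) * cos lam ^ c * b (rw0 (a + 1) c) := by
  have h := b_fuse 0 (rw0 a c)
  rwa [zero_sub, zero_add, prod_cos, ← rw0_succ] at h

/-- the row `- l` and the rows `0 ^ a, l ^ (c + 1)` -/
theorem b_m (a c : ℕ) : b (-lam :: rw0 a (c + 1)) = cos (2 * lam) * cos lam ^ c * b (rw0 (a + 1) c) := by
  rw [b_perm ((rw0_succ' a c).cons _), b_fuse0]

theorem cos3_eq : cos (3 * lam) = sin lam := by
  rw [← cos_4 lam, show lam - 4 * lam = -(3 * lam) by ring, Complex.cos_neg]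

theorem et_1 : et lam = cos (2 * lam) := by
  unfold et
  rw [sub_self, Complex.cos_zero, mul_one]
  congr 1
  ring

theorem et_2 : et (2 * lam) = sin lam * cos lam := by
  unfold et
  rw [← cos3_eq]
  congr 2 <;> ring

theorem sin2_eq : sin (2 * lam) = cos (2 * lam) := by
  rw [← cos_4 (2 * lam), show 2 * lam - 4 * lam = -(2 * lam) by ring, Complex.cos_neg]

theorem cos2_sq : cos (2 * lam) ^ 2 = 1 / 2 := by
  have h := Complex.sin_sq_add_cos_sq (2 * lam)
  rw [sin2_eq] at h
  linear_combination h / 2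

theorem sin1_sq : sin lam ^ 2 = (1 - cos (2 * lam)) / 2 := by
  rw [Complex.cos_two_mul]
  have h := Complex.sin_sq_add_cos_sq lam
  linear_combination h

theorem sc_eq : 2 * (sin lam * cos lam) = cos (2 * lam) := by
  rw [← sin2_eq, Complex.sin_two_mul]
  ring

theorem cos1_ne : cos lam ≠ 0 := by
  have h : (lam : ℂ) = ((Real.pi / 8 : ℝ) : ℂ) := by unfold lam; push_cast; ring
  rw [h, ← Complex.ofReal_cos]
  have h2 : 0 < Real.cos (Real.pi / 8) :=
    Real.cos_pos_of_mem_Ioo ⟨by linarith [Real.pi_pos], by linarith [Real.pi_pos]⟩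
  exact_mod_cast h2.ne'

theorem cos2_ne : cos (2 * lam) ≠ 0 := by
  intro h
  have := cos2_sq
  rw [h] at this
  norm_num at this

theorem sin1_ne : sin lam ≠ 0 := by
  intro h
  have := sc_eq
  rw [h, zero_mul, mul_zero] at this
  exact cos2_ne this.symm

/-- the inner equation, complex -/
theorem b_in (a c : ℕ) : (1 - cos (2 * lam)) * (b (rw0 (a + 2) (c + 1)) * b (rw0 a (c + 1)) +
    b (rw0 (a + 1) (c + 2)) * b (rw0 (a + 1) c) + b (rw0 (a + 2) c) * b (rw0 a (c + 2))) =
    b (rw0 (a + 1) (c + 1)) ^ 2 := by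
  have h := RR_zero (rw0 a (c + 1)) lam 0 (-lam)
  unfold RR at h
  have e12 : b (lam :: 0 :: rw0 a (c + 1)) = b (rw0 (a + 1) (c + 2)) := by
    rw [← rw0_succ]
    exact (b_perm (rw0_succ' (a + 1) (c + 1))).symm
  have e3 := b_m a c
  have e13 : b (lam :: -lam :: rw0 a (c + 1)) = cos (2 * lam) * cos lam ^ (c + 1) * b (rw0 (a + 1) (c + 1)) := by
    rw [b_perm (List.Perm.swap _ _ _), b_fuse0]
  have e2 : b (0 :: rw0 a (c + 1)) = b (rw0 (a + 1) (c + 1)) := by rw [← rw0_succ]
  have e23 : b (0 :: -lam :: rw0 a (c + 1)) = cos (2 * lam) * cos lam ^ c * b (rw0 (a + 2) c) := by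
    rw [b_perm (List.Perm.swap _ _ _), ← rw0_succ, b_m]
  have e1 : b (lam :: rw0 a (c + 1)) = b (rw0 a (c + 2)) := (b_perm (rw0_succ' a (c + 1))).symm
  have e123 : b (lam :: 0 :: -lam :: rw0 a (c + 1)) = cos (2 * lam) * cos lam ^ (c + 1) * b (rw0 (a + 2) (c + 1)) := by
    rw [b_perm ((List.Perm.swap (-lam) 0 _).cons lam), b_perm (List.Perm.swap (-lam) lam _), ← rw0_succ, b_fuse0]
  rw [e12, e3, e13, e2, e23, e1, e123, show lam - 0 = lam by ring, show lam - -lam = 2 * lam by ring,
    show (0 : ℂ) - -lam = lam by ring, et_1, et_2, sin2_eq] at h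
  have hne : cos (2 * lam) * cos lam ^ c * cos lam ≠ 0 :=
    mul_ne_zero (mul_ne_zero cos2_ne (pow_ne_zero _ cos1_ne)) cos1_ne
  refine mul_left_cancel₀ hne ?_
  have k1 := sin1_sq
  have k2 := sc_eq
  have k3 := cos2_sq
  set S := sin lam
  set C := cos lam
  set K := cos (2 * lam)
  set P := b (rw0 (a + 2) (c + 1)) * b (rw0 a (c + 1))
  set Q := b (rw0 (a + 1) (c + 2)) * b (rw0 (a + 1) c)
  set R := b (rw0 (a + 2) c) * b (rw0 a (c + 2))
  set W := b (rw0 (a + 1) (c + 1))
  have h' : S ^ 2 * C * K * (K * C ^ c) * (Q + R) - K ^ 3 * (K * C ^ c * C) * W ^ 2 +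
      S ^ 2 * K * (K * C ^ c * C) * P = 0 := by
    linear_combination h
  have k4 : K ^ 3 = K / 2 := by linear_combination K * k3
  rw [k1, k4] at h'
  have h2 : K * ((K * C ^ c * C) * ((1 - K) * (P + Q + R)) - (K * C ^ c * C) * W ^ 2) = 0 := by
    linear_combination 2 * h'
  have h3 := (mul_eq_zero.1 h2).resolve_left cos2_ne
  linear_combination h3

/-- the equation at the axis, complex -/
theorem b_ax (a : ℕ) : (1 - cos (2 * lam)) * (b (rw0 (a + 2) 0) * b (rw0 a 0)) +
    2 * sin lam * (b (rw0 (a + 1) 1) * b (rw0 a 1)) = b (rw0 (a + 1) 0) ^ 2 := by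
  have h := RR_zero (rw0 a 0) lam 0 (-lam)
  unfold RR at h
  have hm : ∀ a : ℕ, b (-lam :: rw0 a 0) = b (rw0 a 1) := by
    intro a
    rw [← b_neg, List.map_cons, neg_neg, b_perm (rw0_succ' a 0)]
    congr 2
    rw [rw0, List.replicate_zero, List.append_nil, List.map_replicate, neg_zero]
  have e12 : b (lam :: 0 :: rw0 a 0) = b (rw0 (a + 1) 1) := by
    rw [← rw0_succ]
    exact (b_perm (rw0_succ' (a + 1) 0)).symm
  have e13 : b (lam :: -lam :: rw0 a 0) = cos (2 * lam) * b (rw0 (a + 1) 0) := by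
    rw [b_perm (List.Perm.swap _ _ _), b_fuse0, pow_zero, mul_one]
  have e2 : b (0 :: rw0 a 0) = b (rw0 (a + 1) 0) := by rw [← rw0_succ]
  have e23 : b (0 :: -lam :: rw0 a 0) = b (rw0 (a + 1) 1) := by
    rw [b_perm (List.Perm.swap _ _ _), ← rw0_succ, hm]
  have e1 : b (lam :: rw0 a 0) = b (rw0 a 1) := (b_perm (rw0_succ' a 0)).symm
  have e123 : b (lam :: 0 :: -lam :: rw0 a 0) = cos (2 * lam) * b (rw0 (a + 2) 0) := by
    rw [b_perm ((List.Perm.swap (-lam) 0 _).cons lam), b_perm (List.Perm.swap (-lam) lam _), ← rw0_succ, b_fuse0,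
      pow_zero, mul_one]
  rw [e12, hm, e13, e2, e23, e1, e123, show lam - 0 = lam by ring, show lam - -lam = 2 * lam by ring,
    show (0 : ℂ) - -lam = lam by ring, et_1, et_2, sin2_eq] at h
  have k1 := sin1_sq
  have k2 := sc_eq
  have k3 := cos2_sq
  set S := sin lam
  set C := cos lam
  set K := cos (2 * lam)
  set P := b (rw0 (a + 2) 0) * b (rw0 a 0)
  set X := b (rw0 (a + 1) 1) * b (rw0 a 1)
  set W := b (rw0 (a + 1) 0)
  have h' : S * (2 * (S * C)) * K * X - K ^ 2 * K ^ 2 * W ^ 2 + S ^ 2 * K ^ 2 * P = 0 := by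
    linear_combination h
  rw [k1, k2, k3] at h'
  have h4 : S * K ^ 2 * X - 1 / 4 * W ^ 2 + (1 - K) / 4 * P = 0 := by linear_combination h'
  rw [k3] at h4
  linear_combination 4 * h4

/-! ### real form -/

/-- `sqrt 2 / 2` -/
noncomputable def sK : ℝ := √2 / 2

theorem sK_coe : ((sK : ℝ) : ℂ) = cos (2 * lam) := by
  have h : (2 * lam : ℂ) = ((Real.pi / 4 : ℝ) : ℂ) := by unfold lam; push_cast; ring
  rw [h, ← Complex.ofReal_cos, Real.cos_pi_div_four, sK]

theorem sin_coe : ((Real.sin (Real.pi / 8) : ℝ) : ℂ) = sin lam := by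
  have h : (lam : ℂ) = ((Real.pi / 8 : ℝ) : ℂ) := by unfold lam; push_cast; ring
  rw [h, Complex.ofReal_sin]

/-- **THE INNER EQUATION** -/
theorem bb_in (a c : ℕ) : (1 - sK) * (bb (a + 2) (c + 1) * bb a (c + 1) +
    bb (a + 1) (c + 2) * bb (a + 1) c + bb (a + 2) c * bb a (c + 2)) = bb (a + 1) (c + 1) ^ 2 := by
  have h := b_in a c
  rw [← sK_coe, ← bb_coe, ← bb_coe, ← bb_coe, ← bb_coe, ← bb_coe, ← bb_coe, ← bb_coe] at h
  exact_mod_cast h

/-- **THE EQUATION AT THE AXIS** -/
theorem bb_ax (a : ℕ) : (1 - sK) * (bb (a + 2) 0 * bb a 0) +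
    2 * Real.sin (Real.pi / 8) * (bb (a + 1) 1 * bb a 1) = bb (a + 1) 0 ^ 2 := by
  have h := b_ax a
  rw [← sK_coe, ← sin_coe, ← bb_coe, ← bb_coe, ← bb_coe, ← bb_coe, ← bb_coe] at h
  exact_mod_cast h

theorem bb_zero : bb 0 0 = 1 := by
  have h : b (rw0 0 0) = 1 := by
    rw [show rw0 0 0 = [] from rfl, b_nil]
  rw [bb, h, Complex.one_re]

theorem bb_one : bb 1 0 = 1 := by
  have h : b (rw0 1 0) = 1 := by
    rw [show rw0 1 0 = [0] from rfl, b_one]
  rw [bb, h, Complex.one_re]

end Pool.Agent.NUT8
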