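import Pool.Agent.NUBD.BD2

/-!
# NUT8/Rel (helper38): the three row relation of the scalars of the disc functional

`b L` is the scalar `BD` of the list of rapidities `L`. For all lists `L` and rows `x1, x2, x3`

`s12 e13 e23 b12 b3 - s13 e12 e23 b13 b2 + s23 e12 e13 b23 b1 + s12 s13 s23 b b123 = 0`,

`s u = sin u`, `e u = cos (u + l) cos (u - l)`.
-/

set_option autoImplicit false

namespace Pool.Agent.NUT8

open Complex Finset Filter Topology
open Pool.Agent.NUBD
open Pool.Agent.NUF.Fr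
open Pool.Agent.EXL.Fm (lam Dn)

/-- the scalars as a function of a list of rapidities -/
noncomputable def b (L : List ℂ) : ℂ := BD (fun x : ℂ => x) L

/-- `cos (u + l) cos (u - l)` -/
noncomputable def et (u : ℂ) : ℂ := cos (u + lam) * cos (u - lam)

theorem b_perm {L M : List ℂ} (h : L.Perm M) : b L = b M := BD_perm h

theorem b_map {ι : Type*} (z : ι → ℂ) (X : List ι) : b (X.map z) = BD z X := BD_map z X

theorem b_lo (w : ℂ) (Y : List ℂ) :
    b ((w - 3 * lam) :: w :: Y) = c3 * (Y.map fun k => Dn (w - k)).prod * b Y :=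
  BD_lo (z := fun x : ℂ => x) (p := w - 3 * lam) (i := w) rfl

theorem b_hi (w : ℂ) (Y : List ℂ) :
    b ((w + 3 * lam) :: w :: Y) = c3 * (Y.map fun k => Dn (k - w)).prod * b Y :=
  BD_hi (z := fun x : ℂ => x) (p := w + 3 * lam) (i := w) rfl

/-! ### trigonometry -/

theorem cos_4 (u : ℂ) : cos (u - 4 * lam) = sin u := by
  rw [← sin_c (u - 4 * lam)]
  congr 1
  ring

theorem cos_p4 (u : ℂ) : cos (u + 4 * lam) = -sin u := by
  rw [show u + 4 * lam = u + (Real.pi : ℂ) / 2 by unfold lam; ring, Complex.cos_add_pi_div_two]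

theorem sin_m3 (u : ℂ) : sin (u - 3 * lam) = -cos (u + lam) := by
  rw [show u + lam = u - 3 * lam + 4 * lam by ring, cos_p4, neg_neg]

theorem sin_p3 (u : ℂ) : sin (u + 3 * lam) = cos (u - lam) := by
  rw [← sin_c (u - lam)]
  congr 1
  ring

theorem et_m3 (u : ℂ) : et (u - 3 * lam) = cos (u - 2 * lam) * sin u := by
  unfold et
  rw [show u - 3 * lam - lam = u - 4 * lam by ring, cos_4, show u - 3 * lam + lam = u - 2 * lam by ring]

theorem et_p3 (u : ℂ) : et (u + 3 * lam) = -(cos (u + 2 * lam) * sin u) := by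
  unfold et
  rw [show u + 3 * lam + lam = u + 4 * lam by ring, cos_p4, show u + 3 * lam - lam = u + 2 * lam by ring]
  ring

theorem et_neg (u : ℂ) : et (-u) = et u := by
  unfold et
  rw [show -u + lam = -(u - lam) by ring, show -u - lam = -(u + lam) by ring, Complex.cos_neg,
    Complex.cos_neg, mul_comm]

theorem sin_3_ne : sin (3 * lam) ≠ 0 := by
  have h : (3 * lam : ℂ) = ((3 * (Real.pi / 8) : ℝ) : ℂ) := by unfold lam; push_cast; ring
  rw [h, ← Complex.ofReal_sin]
  have h2 : 0 < Real.sin (3 * (Real.pi / 8)) :=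
    Real.sin_pos_of_pos_of_lt_pi (by positivity) (by linarith [Real.pi_pos])
  exact_mod_cast h2.ne'

theorem sin_6_ne : sin (6 * lam) ≠ 0 := by
  have h : (6 * lam : ℂ) = ((6 * (Real.pi / 8) : ℝ) : ℂ) := by unfold lam; push_cast; ring
  rw [h, ← Complex.ofReal_sin]
  have h2 : 0 < Real.sin (6 * (Real.pi / 8)) :=
    Real.sin_pos_of_pos_of_lt_pi (by positivity) (by linarith [Real.pi_pos])
  exact_mod_cast h2.ne'

/-! ### trigonometric polynomials in one rapidity -/

/-- a trigonometric polynomial of degree `d` -/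
def TP (d : ℕ) (f : ℂ → ℂ) : Prop :=
  ∃ Q : Polynomial ℂ, Q.natDegree ≤ d ∧ ∀ x, f x = exp (I * (d : ℂ) * x) * Q.eval (e2 x)

theorem TP.mul {d d' : ℕ} {f g : ℂ → ℂ} (hf : TP d f) (hg : TP d' g) : TP (d + d') fun x => f x * g x := by
  obtain ⟨P, hP, h1⟩ := hf
  obtain ⟨Q, hQ, h2⟩ := hg
  refine ⟨P * Q, Polynomial.natDegree_mul_le.trans (by omega), fun x => ?_⟩
  beta_reduce
  rw [h1, h2, Polynomial.eval_mul, show I * ((d + d' : ℕ) : ℂ) * x = I * (d : ℂ) * x + I * (d' : ℂ) * x by
    push_cast; ring, Complex.exp_add]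
  ring

theorem TP.add {d : ℕ} {f g : ℂ → ℂ} (hf : TP d f) (hg : TP d g) : TP d fun x => f x + g x := by
  obtain ⟨P, hP, h1⟩ := hf
  obtain ⟨Q, hQ, h2⟩ := hg
  refine ⟨P + Q, (Polynomial.natDegree_add_le _ _).trans (max_le hP hQ), fun x => ?_⟩
  beta_reduce
  rw [h1, h2, Polynomial.eval_add]
  ring

theorem TP.cmul {d : ℕ} {f : ℂ → ℂ} (c : ℂ) (hf : TP d f) : TP d fun x => c * f x := by
  obtain ⟨P, hP, h1⟩ := hf
  refine ⟨Polynomial.C c * P, (Polynomial.natDegree_C_mul_le _ _).trans hP, fun x => ?_⟩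
  beta_reduce
  rw [h1, Polynomial.eval_mul, Polynomial.eval_C]
  ring

theorem TP.of_eq {d d' : ℕ} {f g : ℂ → ℂ} (hf : TP d f) (hd : d = d') (h : ∀ x, g x = f x) : TP d' g := by
  subst hd
  obtain ⟨P, hP, h1⟩ := hf
  exact ⟨P, hP, fun x => by rw [h, h1]⟩

theorem TP_sin (a : ℂ) : TP 1 fun x => sin (x - a) := by
  refine ⟨Polynomial.C (-(2 * exp (I * a)) / (2 * I)) * Polynomial.X + Polynomial.C (exp (-(I * a)) / (2 * I)),
    Polynomial.natDegree_linear_le, fun x => ?_⟩
  beta_reduce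
  rw [Polynomial.eval_add, Polynomial.eval_mul, Polynomial.eval_C, Polynomial.eval_X, Polynomial.eval_C,
    Complex.sin, e2]
  have e1 : exp (-(x - a) * I) = exp (I * x) * (exp (I * a) * exp (-(2 * I * x))) := by
    rw [← Complex.exp_add, ← Complex.exp_add]
    congr 1
    ring
  have e2' : exp ((x - a) * I) = exp (I * x) * exp (-(I * a)) := by
    rw [← Complex.exp_add]
    congr 1
    ring
  rw [e1, e2', show I * ((1 : ℕ) : ℂ) * x = I * x by push_cast; ring]
  have h2 : (2 : ℂ) * I ≠ 0 := mul_ne_zero two_ne_zero I_ne_zero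
  have hI : (I : ℂ) / 2 = -(1 / (2 * I)) := by
    rw [eq_neg_iff_add_eq_zero]
    field_simp
    rw [I_sq]
    ring
  rw [mul_div_assoc (exp (I * x) * (exp (I * a) * exp (-(2 * I * x))) - exp (I * x) * exp (-(I * a))) I 2, hI]
  field_simp
  ring

theorem TP_cos (a : ℂ) : TP 1 fun x => cos (x - a) :=
  (TP_sin (a - 4 * lam)).of_eq rfl fun x => by
    rw [← sin_c (x - a)]
    congr 1
    ring

theorem TP_et (a : ℂ) : TP 2 fun x => et (x - a) :=
  ((TP_cos (a - lam)).mul (TP_cos (a + lam))).of_eq rfl fun x => by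
    unfold et
    rw [show x - (a - lam) = x - a + lam by ring, show x - (a + lam) = x - a - lam by ring]

theorem TP_b (X : List ℂ) : TP X.length fun x => b (x :: X) :=
  ⟨BP (fun x : ℂ => x) X, BP_deg, fun _ => BD_cons_pol⟩

/-- a trigonometric polynomial of degree `d` with more than `d` zeros -/
theorem TP.zero {d : ℕ} {f : ℂ → ℂ} (hf : TP d f) (S : List ℂ) (hS : S.Pairwise fun x y => sin (x - y) ≠ 0)
    (hd : d < S.length) (h : ∀ x ∈ S, f x = 0) (x : ℂ) : f x = 0 := by
  obtain ⟨P, hP, h1⟩ := hf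
  have hn : (S.map e2).Nodup := by
    rw [List.Nodup, List.pairwise_map]
    exact hS.imp fun {a c} hac e => hac (e2_inj e)
  have h0 : P = 0 := by
    refine Polynomial.eq_zero_of_natDegree_lt_card_of_eval_eq_zero' P (S.map e2).toFinset ?_ ?_
    · intro t ht
      obtain ⟨a, ha, rfl⟩ := List.mem_map.1 (List.mem_toFinset.1 ht)
      have := h a ha
      rw [h1] at this
      exact (mul_eq_zero.1 this).resolve_left (Complex.exp_ne_zero _)
    · rw [List.toFinset_card_of_nodup hn, List.length_map]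
      omega
  rw [h1, h0, Polynomial.eval_zero, mul_zero]

/-! ### the relation -/

/-- the three row form -/
noncomputable def RR (L : List ℂ) (x1 x2 x3 : ℂ) : ℂ :=
  sin (x1 - x2) * et (x1 - x3) * et (x2 - x3) * (b (x1 :: x2 :: L) * b (x3 :: L)) -
    sin (x1 - x3) * et (x1 - x2) * et (x2 - x3) * (b (x1 :: x3 :: L) * b (x2 :: L)) +
    sin (x2 - x3) * et (x1 - x2) * et (x1 - x3) * (b (x2 :: x3 :: L) * b (x1 :: L)) +
    sin (x1 - x2) * sin (x1 - x3) * sin (x2 - x3) * (b L * b (x1 :: x2 :: x3 :: L))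

theorem RR_perm {L M : List ℂ} (h : L.Perm M) (x1 x2 x3 : ℂ) : RR L x1 x2 x3 = RR M x1 x2 x3 := by
  unfold RR
  rw [b_perm h, b_perm (h.cons x1), b_perm (h.cons x2), b_perm (h.cons x3),
    b_perm ((h.cons x2).cons x1), b_perm ((h.cons x3).cons x1), b_perm ((h.cons x3).cons x2),
    b_perm (((h.cons x3).cons x2).cons x1)]

theorem TP_RR (L : List ℂ) (x2 x3 : ℂ) : TP (L.length + 4) fun x => RR L x x2 x3 := by
  have h1 := (((TP_sin x2).mul (TP_et x3)).mul (TP_b (x2 :: L))).cmul (et (x2 - x3) * b (x3 :: L))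
  have h2 := (((TP_sin x3).mul (TP_et x2)).mul (TP_b (x3 :: L))).cmul (-(et (x2 - x3) * b (x2 :: L)))
  have h3 := (((TP_et x2).mul (TP_et x3)).mul (TP_b L)).cmul (sin (x2 - x3) * b (x2 :: x3 :: L))
  have h4 := (((TP_sin x2).mul (TP_sin x3)).mul (TP_b (x2 :: x3 :: L))).cmul (sin (x2 - x3) * b L)
  have e1 : 1 + 2 + (x2 :: L).length = L.length + 4 := by rw [List.length_cons]; omega
  have e2 : 1 + 2 + (x3 :: L).length = L.length + 4 := by rw [List.length_cons]; omega
  have e3 : 2 + 2 + L.length = L.length + 4 := by omega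
  have e4 : 1 + 1 + (x2 :: x3 :: L).length = L.length + 4 := by
    rw [List.length_cons, List.length_cons]; omega
  rw [e1] at h1
  rw [e2] at h2
  rw [e3] at h3
  rw [e4] at h4
  refine (((h1.add h2).add h3).add h4).of_eq rfl fun x => ?_
  unfold RR
  ring

/-- the value at a row of the list -/
theorem RR_node (L : List ℂ) (y x2 x3 : ℂ) : RR (y :: L) (y - 3 * lam) x2 x3 =
    c3 * (L.map fun k => Dn (y - k)).prod * (cos (y - x2 - 2 * lam) * cos (y - x3 - 2 * lam)) *
      RR L y x2 x3 := by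
  have h1 : b ((y - 3 * lam) :: x2 :: y :: L) =
      c3 * (Dn (y - x2) * (L.map fun k => Dn (y - k)).prod) * b (x2 :: L) := by
    rw [b_perm ((List.Perm.swap y x2 L).cons (y - 3 * lam)), b_lo, List.map_cons, List.prod_cons]
  have h2 : b ((y - 3 * lam) :: x3 :: y :: L) =
      c3 * (Dn (y - x3) * (L.map fun k => Dn (y - k)).prod) * b (x3 :: L) := by
    rw [b_perm ((List.Perm.swap y x3 L).cons (y - 3 * lam)), b_lo, List.map_cons, List.prod_cons]
  have h3 : b ((y - 3 * lam) :: y :: L) = c3 * (L.map fun k => Dn (y - k)).prod * b L := b_lo y L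
  have hp : (x2 :: x3 :: y :: L).Perm (y :: x2 :: x3 :: L) :=
    ((List.Perm.swap y x3 L).cons x2).trans (List.Perm.swap y x2 (x3 :: L))
  have h4 : b ((y - 3 * lam) :: x2 :: x3 :: y :: L) =
      c3 * (Dn (y - x2) * (Dn (y - x3) * (L.map fun k => Dn (y - k)).prod)) * b (x2 :: x3 :: L) := by
    rw [b_perm (hp.cons (y - 3 * lam)), b_lo, List.map_cons, List.prod_cons, List.map_cons, List.prod_cons]
  have h5 : b (x2 :: y :: L) = b (y :: x2 :: L) := b_perm (List.Perm.swap y x2 L)
  have h6 : b (x3 :: y :: L) = b (y :: x3 :: L) := b_perm (List.Perm.swap y x3 L)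
  have h7 : b (x2 :: x3 :: y :: L) = b (y :: x2 :: x3 :: L) := b_perm hp
  unfold RR
  rw [h1, h2, h3, h4, h5, h6, h7, show y - 3 * lam - x2 = y - x2 - 3 * lam by ring,
    show y - 3 * lam - x3 = y - x3 - 3 * lam by ring, sin_m3, sin_m3, et_m3, et_m3, Dn_cos, Dn_cos]
  unfold et
  ring

theorem et_m3' : et (-(3 * lam)) = 0 := by
  have := et_m3 0
  rw [zero_sub, Complex.sin_zero, mul_zero] at this
  exact this

/-- the other nodes -/
theorem RR_n1 (L : List ℂ) (x2 x3 : ℂ) : RR L (x2 - 3 * lam) x2 x3 = 0 := by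
  unfold RR
  rw [b_lo, b_lo, show x2 - 3 * lam - x2 = -(3 * lam) by ring, et_m3', List.map_cons, List.prod_cons,
    show x2 - 3 * lam - x3 = x2 - x3 - 3 * lam by ring, sin_m3, et_m3, Dn_cos]
  unfold et
  ring

theorem RR_n2 (L : List ℂ) (x2 x3 : ℂ) : RR L (x3 - 3 * lam) x2 x3 = 0 := by
  have h1 : b ((x3 - 3 * lam) :: x2 :: x3 :: L) =
      c3 * (Dn (x3 - x2) * (L.map fun k => Dn (x3 - k)).prod) * b (x2 :: L) := by
    rw [b_perm ((List.Perm.swap x3 x2 L).cons (x3 - 3 * lam)), b_lo, List.map_cons, List.prod_cons]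
  unfold RR
  rw [h1, b_lo, show x3 - 3 * lam - x3 = -(3 * lam) by ring, et_m3',
    show x3 - 3 * lam - x2 = x3 - x2 - 3 * lam by ring, sin_m3, et_m3, Dn_cos,
    show x2 - x3 = -(x3 - x2) by ring, et_neg, Complex.sin_neg (x3 - x2)]
  unfold et
  ring

theorem RR_n3 (L : List ℂ) (x2 x3 : ℂ) : RR L x2 x2 x3 = 0 := by
  unfold RR
  rw [sub_self, Complex.sin_zero]
  ring

theorem RR_n4 (L : List ℂ) (x2 x3 : ℂ) : RR L x3 x2 x3 = 0 := by
  unfold RR
  rw [sub_self, Complex.sin_zero, b_perm (List.Perm.swap x2 x3 L), show x2 - x3 = -(x3 - x2) by ring,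
    et_neg, Complex.sin_neg (x3 - x2)]
  ring

theorem RR_n5 (L : List ℂ) (x2 x3 : ℂ) : RR L (x2 + 3 * lam) x2 x3 = 0 := by
  unfold RR
  rw [b_hi, b_hi, show x2 + 3 * lam - x2 = 0 + 3 * lam by ring, et_p3, Complex.sin_zero, List.map_cons,
    List.prod_cons, show x2 + 3 * lam - x3 = x2 - x3 + 3 * lam by ring, sin_p3 (x2 - x3), et_p3, Dn_cos,
    show x3 - x2 - lam = -(x2 - x3 + lam) by ring, show x3 - x2 - 2 * lam = -(x2 - x3 + 2 * lam) by ring,
    Complex.cos_neg, Complex.cos_neg]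
  unfold et
  ring

/-- general position of two rows -/
def GP (a c : ℂ) : Prop := sin (a - c) ≠ 0 ∧ sin (a - c - 3 * lam) ≠ 0 ∧ sin (a - c + 3 * lam) ≠ 0 ∧
  sin (a - c - 6 * lam) ≠ 0 ∧ sin (a - c + 6 * lam) ≠ 0

theorem sin_ne_neg {a : ℂ} (h : sin a ≠ 0) : sin (-a) ≠ 0 := by
  rw [Complex.sin_neg]
  exact neg_ne_zero.2 h

theorem RR_gen : ∀ (n : ℕ) (L : List ℂ), L.length = n → ∀ x2 x3 : ℂ, (x2 :: x3 :: L).Pairwise GP →
    ∀ x1 : ℂ, RR L x1 x2 x3 = 0 := by
  intro n
  induction n with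
  | zero =>
    intro L hL x2 x3 hg x1
    have hL' : L = [] := List.length_eq_zero_iff.1 hL
    subst hL'
    rw [List.pairwise_cons, List.pairwise_cons] at hg
    obtain ⟨g1, g2, g3, g4, g5⟩ := hg.1 x3 (by simp)
    refine (TP_RR [] x2 x3).zero [x2 - 3 * lam, x3 - 3 * lam, x2, x3, x2 + 3 * lam] ?_ (by simp) ?_ x1
    · simp only [List.pairwise_cons, List.mem_cons, List.not_mem_nil, or_false, forall_eq_or_imp, forall_eq,
        List.Pairwise.nil, and_true, IsEmpty.forall_iff, implies_true]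
      refine ⟨⟨?_, ?_, ?_, ?_⟩, ⟨?_, ?_, ?_⟩, ⟨?_, ?_⟩, ?_⟩
      · rwa [show x2 - 3 * lam - (x3 - 3 * lam) = x2 - x3 by ring]
      · rw [show x2 - 3 * lam - x2 = -(3 * lam) by ring]
        exact sin_ne_neg sin_3_ne
      · rwa [show x2 - 3 * lam - x3 = x2 - x3 - 3 * lam by ring]
      · rw [show x2 - 3 * lam - (x2 + 3 * lam) = -(6 * lam) by ring]
        exact sin_ne_neg sin_6_ne
      · rw [show x3 - 3 * lam - x2 = -(x2 - x3 + 3 * lam) by ring]
        exact sin_ne_neg g3
      · rw [show x3 - 3 * lam - x3 = -(3 * lam) by ring]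
        exact sin_ne_neg sin_3_ne
      · rw [show x3 - 3 * lam - (x2 + 3 * lam) = -(x2 - x3 + 6 * lam) by ring]
        exact sin_ne_neg g5
      · exact g1
      · rw [show x2 - (x2 + 3 * lam) = -(3 * lam) by ring]
        exact sin_ne_neg sin_3_ne
      · rw [show x3 - (x2 + 3 * lam) = -(x2 - x3 + 3 * lam) by ring]
        exact sin_ne_neg g3
    · intro x hx
      simp only [List.mem_cons, List.not_mem_nil, or_false] at hx
      rcases hx with rfl | rfl | rfl | rfl | rfl
      · exact RR_n1 _ _ _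
      · exact RR_n2 _ _ _
      · exact RR_n3 _ _ _
      · exact RR_n4 _ _ _
      · exact RR_n5 _ _ _
  | succ n ih =>
    intro L hL x2 x3 hg x1
    have hg0 := hg
    rw [List.pairwise_cons, List.pairwise_cons] at hg
    obtain ⟨h2, h3, hL3⟩ := hg
    obtain ⟨g1, g2, g3, g4, g5⟩ := h2 x3 (by simp)
    refine (TP_RR L x2 x3).zero ([x2 - 3 * lam, x3 - 3 * lam, x2, x3, x2 + 3 * lam] ++
      L.map fun y => y - 3 * lam) ?_ (by simp) ?_ x1
    · rw [List.pairwise_append]
      refine ⟨?_, ?_, ?_⟩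
      · simp only [List.pairwise_cons, List.mem_cons, List.not_mem_nil, or_false, forall_eq_or_imp, forall_eq,
          List.Pairwise.nil, and_true, IsEmpty.forall_iff, implies_true]
        refine ⟨⟨?_, ?_, ?_, ?_⟩, ⟨?_, ?_, ?_⟩, ⟨?_, ?_⟩, ?_⟩
        · rwa [show x2 - 3 * lam - (x3 - 3 * lam) = x2 - x3 by ring]
        · rw [show x2 - 3 * lam - x2 = -(3 * lam) by ring]
          exact sin_ne_neg sin_3_ne
        · rwa [show x2 - 3 * lam - x3 = x2 - x3 - 3 * lam by ring]
        · rw [show x2 - 3 * lam - (x2 + 3 * lam) = -(6 * lam) by ring]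
          exact sin_ne_neg sin_6_ne
        · rw [show x3 - 3 * lam - x2 = -(x2 - x3 + 3 * lam) by ring]
          exact sin_ne_neg g3
        · rw [show x3 - 3 * lam - x3 = -(3 * lam) by ring]
          exact sin_ne_neg sin_3_ne
        · rw [show x3 - 3 * lam - (x2 + 3 * lam) = -(x2 - x3 + 6 * lam) by ring]
          exact sin_ne_neg g5
        · exact g1
        · rw [show x2 - (x2 + 3 * lam) = -(3 * lam) by ring]
          exact sin_ne_neg sin_3_ne
        · rw [show x3 - (x2 + 3 * lam) = -(x2 - x3 + 3 * lam) by ring]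
          exact sin_ne_neg g3
      · rw [List.pairwise_map]
        refine hL3.imp fun {a c} hac => ?_
        rw [show a - 3 * lam - (c - 3 * lam) = a - c by ring]
        exact hac.1
      · intro a ha c hc
        obtain ⟨y, hy, rfl⟩ := List.mem_map.1 hc
        obtain ⟨k1, k2, k3, k4, k5⟩ := h2 y (by simp [hy])
        obtain ⟨m1, m2, m3, m4, m5⟩ := h3 y hy
        simp only [List.mem_cons, List.not_mem_nil, or_false] at ha
        rcases ha with rfl | rfl | rfl | rfl | rfl
        · rwa [show x2 - 3 * lam - (y - 3 * lam) = x2 - y by ring]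
        · rwa [show x3 - 3 * lam - (y - 3 * lam) = x3 - y by ring]
        · rwa [show a - (y - 3 * lam) = a - y + 3 * lam by ring]
        · rwa [show a - (y - 3 * lam) = a - y + 3 * lam by ring]
        · rwa [show x2 + 3 * lam - (y - 3 * lam) = x2 - y + 6 * lam by ring]
    · intro x hx
      rcases List.mem_append.1 hx with hx | hx
      · simp only [List.mem_cons, List.not_mem_nil, or_false] at hx
        rcases hx with rfl | rfl | rfl | rfl | rfl
        · exact RR_n1 _ _ _
        · exact RR_n2 _ _ _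
        · exact RR_n3 _ _ _
        · exact RR_n4 _ _ _
        · exact RR_n5 _ _ _
      · obtain ⟨y, hy, rfl⟩ := List.mem_map.1 hx
        have hp := List.perm_cons_erase hy
        have hl : (L.erase y).length = n := by
          rw [List.length_erase_of_mem hy, hL]
          rfl
        have hsub : (x2 :: x3 :: L.erase y).Pairwise GP :=
          hg0.sublist (((List.erase_sublist (a := y) (l := L)).cons_cons x3).cons_cons x2)
        rw [RR_perm hp, RR_node, ih (L.erase y) hl x2 x3 hsub y, mul_zero]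

/-- **THE THREE ROW RELATION**, all rows -/
theorem RR_zero (L : List ℂ) (x1 x2 x3 : ℂ) : RR L x1 x2 x3 = 0 := by
  obtain ⟨m, hm⟩ : ∃ m, m = (x2 :: x3 :: L).length := ⟨_, rfl⟩
  -- labels
  obtain ⟨n, hn⟩ : ∃ n, n = L.length := ⟨_, rfl⟩
  set X : List (Fin (n + 2)) := (List.finRange n).map fun i => i.succ.succ with hX
  set z : Fin (n + 2) → ℂ := Fin.cons x2 (Fin.cons x3 fun i : Fin n => L.get (i.cast hn)) with hz
  have hLX : L = X.map z := by
    rw [hX, List.map_map]
    have e1 : (z ∘ fun i : Fin n => i.succ.succ) = fun i : Fin n => L.get (i.cast hn) := by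
      funext i
      rw [Function.comp_apply, hz, Fin.cons_succ, Fin.cons_succ]
    rw [e1]
    subst hn
    simp
  have h0 : z 0 = x2 := rfl
  have h1 : z 1 = x3 := by
    rw [hz]
    exact Fin.cons_succ (α := fun _ => ℂ) x2 (Fin.cons x3 fun i : Fin n => L.get (i.cast hn)) 0
  clear_value X z
  set F : ℂ → ℂ := fun t => RR (X.map fun i => z i + t * ((i : ℕ) : ℂ)) x1 (z 0 + t * ((0 : Fin (n + 2)) : ℕ))
    (z 1 + t * ((1 : Fin (n + 2)) : ℕ)) with hF
  have hcont : Continuous F := by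
    have hb : ∀ Y : List (Option (Fin (n + 2))), Continuous fun t : ℂ =>
        BD (fun o : Option (Fin (n + 2)) => o.elim x1 fun i => z i + t * ((i : ℕ) : ℂ)) Y := fun Y =>
      cont_BD fun k _ => by
        rcases k with _ | k
        · exact continuous_const
        · simp only [Option.elim_some]
          fun_prop
    have hmap : ∀ t : ℂ, (X.map fun i => z i + t * ((i : ℕ) : ℂ)) =
        (X.map some).map fun o : Option (Fin (n + 2)) => o.elim x1 fun i => z i + t * ((i : ℕ) : ℂ) := by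
      intro t
      rw [List.map_map]
      rfl
    have hbb : ∀ Y : List (Option (Fin (n + 2))), Continuous fun t : ℂ =>
        b (Y.map fun o : Option (Fin (n + 2)) => o.elim x1 fun i => z i + t * ((i : ℕ) : ℂ)) := fun Y => by
      simp only [b_map]
      exact hb Y
    have k0 := hbb (X.map some)
    have k1 := hbb (none :: X.map some)
    have k2 := hbb (some 0 :: X.map some)
    have k3 := hbb (some 1 :: X.map some)
    have k4 := hbb (none :: some 0 :: X.map some)
    have k5 := hbb (none :: some 1 :: X.map some)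
    have k6 := hbb (some 0 :: some 1 :: X.map some)
    have k7 := hbb (none :: some 0 :: some 1 :: X.map some)
    simp only [List.map_cons, ← hmap, Option.elim_some, Option.elim_none] at k0 k1 k2 k3 k4 k5 k6 k7
    rw [hF]
    unfold RR et
    refine ((((Continuous.mul ?_ (k4.mul k3)).sub (Continuous.mul ?_ (k5.mul k2))).add
      (Continuous.mul ?_ (k6.mul k1))).add (Continuous.mul ?_ (k0.mul k7)))
    all_goals fun_prop
  have hdense : Dense {t : ℂ | ∀ i j : Fin (n + 2), i ≠ j →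
      GP (z i + t * ((i : ℕ) : ℂ)) (z j + t * ((j : ℕ) : ℂ))} := by
    have hc : ∀ c : ℂ, (⋃ q : {q : Fin (n + 2) × Fin (n + 2) // q.1 ≠ q.2},
        {t : ℂ | sin ((z q.1.1 - z q.1.2 + c) + t * (((q.1.1 : ℕ) : ℂ) - ((q.1.2 : ℕ) : ℂ))) = 0}).Countable := by
      intro c
      refine Set.countable_iUnion fun q => countable_sin ?_
      rw [sub_ne_zero]
      exact_mod_cast fun e => q.2 (Fin.ext (by exact_mod_cast e))
    have hc5 := ((((hc 0).union (hc (-(3 * lam)))).union (hc (3 * lam))).union (hc (-(6 * lam)))).union (hc (6 * lam))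
    have hk : ∀ (t c : ℂ), t ∉ (⋃ q : {q : Fin (n + 2) × Fin (n + 2) // q.1 ≠ q.2},
        {t : ℂ | sin ((z q.1.1 - z q.1.2 + c) + t * (((q.1.1 : ℕ) : ℂ) - ((q.1.2 : ℕ) : ℂ))) = 0}) →
        ∀ i j : Fin (n + 2), i ≠ j → sin (z i + t * ((i : ℕ) : ℂ) - (z j + t * ((j : ℕ) : ℂ)) + c) ≠ 0 := by
      intro t c ht i j hij h
      rw [Set.mem_iUnion, not_exists] at ht
      refine ht ⟨(i, j), hij⟩ ?_
      rw [Set.mem_ofPred_eq, ← h]
      congr 1
      ring
    refine (hc5.dense_compl ℂ).mono fun t ht i j hij => ?_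
    simp only [Set.mem_compl_iff, Set.mem_union, not_or] at ht
    obtain ⟨⟨⟨⟨k0, k1⟩, k2⟩, k3⟩, k4⟩ := ht
    refine ⟨?_, ?_, hk t _ k2 i j hij, ?_, hk t _ k4 i j hij⟩
    · have := hk t _ k0 i j hij
      rwa [add_zero] at this
    · have := hk t _ k1 i j hij
      rwa [← sub_eq_add_neg] at this
    · have := hk t _ k3 i j hij
      rwa [← sub_eq_add_neg] at this
  have key := Continuous.ext_on hdense hcont (continuous_const (y := (0 : ℂ))) fun t ht => by
    rw [hF]
    refine RR_gen X.length _ (by rw [List.length_map]) _ _ ?_ x1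
    have e1 : (z 0 + t * (((0 : Fin (n + 2)) : ℕ) : ℂ)) :: (z 1 + t * (((1 : Fin (n + 2)) : ℕ) : ℂ)) ::
        (X.map fun i => z i + t * ((i : ℕ) : ℂ)) =
        (List.finRange (n + 2)).map fun i => z i + t * ((i : ℕ) : ℂ) := by
      rw [List.finRange_succ, List.finRange_succ, List.map_cons, List.map_cons, List.map_cons, List.map_map,
        hX, List.map_map, List.map_map]
      rfl
    rw [e1, List.pairwise_map]
    exact (List.nodup_finRange (n + 2)).imp fun {i j} hij => ht i j hij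
  have h := congrFun key 0
  rw [hF] at h
  simp only [zero_mul, add_zero] at h
  rw [h0, h1] at h
  rw [hLX]
  exact h

end Pool.Agent.NUT8
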