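import Pool.Agent.NUT8.Lat

/-!
# NUT8/Tau (helper38): the normaliser over the bulk is a solution of the lattice equation

`tau a c = bb a c * (1 + s) ^ ((a + c) / 2) * P0 ^ (- (a ^ 2 + a c + c ^ 2) / 2)`, `s = sqrt 2 / 2`,
`P0 = 2 / 3 (1 + s)`:

* `tau_in` : `tau (a+2) (c+1) tau a (c+1) + tau (a+1) (c+2) tau (a+1) c + tau (a+2) c tau a (c+2) =
  3 tau (a+1) (c+1) ^ 2`;
* `tau_ax` : `tau (a+2) 0 tau a 0 + 2 tau (a+1) 1 tau a 1 = 3 tau (a+1) 0 ^ 2`;
* `tau_symm`, `tau_zero`, `tau_one_sq`.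
-/

set_option autoImplicit false

namespace Pool.Agent.NUT8

/-- the value of the pair function at `0` -/
noncomputable def P0 : ℝ := 2 / 3 * (1 + sK)

theorem sK_sq : sK ^ 2 = 1 / 2 := by
  unfold sK
  rw [div_pow, Real.sq_sqrt (by norm_num)]
  norm_num

theorem sK_pos : 0 < sK := by
  unfold sK
  positivity

theorem sK_lt : sK < 1 := by
  have h1 := sK_sq
  have h2 := sK_pos
  nlinarith

theorem P0_pos : 0 < P0 := by
  have := sK_pos
  unfold P0
  positivity

theorem P0_mul : P0 * (1 - sK) = 1 / 3 := by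
  have := sK_sq
  unfold P0
  linear_combination (-(2 / 3)) * this

/-- the exponent -/
noncomputable def Ee (a c : ℕ) : ℝ := ((a : ℝ) + c) / 2 * Real.log (1 + sK) -
  ((a : ℝ) ^ 2 + a * c + (c : ℝ) ^ 2) / 2 * Real.log P0

/-- **the normaliser over the bulk** -/
noncomputable def tau (a c : ℕ) : ℝ := bb a c * Real.exp (Ee a c)

theorem tau_symm (a c : ℕ) : tau a c = tau c a := by
  unfold tau Ee
  rw [bb_symm]
  congr 2
  ring

theorem tau_zero : tau 0 0 = 1 := by
  unfold tau Ee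
  rw [bb_zero]
  simp

theorem exp_P0 : Real.exp (Real.log P0) = P0 := Real.exp_log P0_pos

theorem tau_mul {a c a' c' x y : ℕ} (h : Ee a c + Ee a' c' = 2 * Ee x y - Real.log P0) :
    P0 * (tau a c * tau a' c') = bb a c * bb a' c' * Real.exp (Ee x y) ^ 2 := by
  have h1 : Real.exp (Ee a c) * Real.exp (Ee a' c') * P0 = Real.exp (Ee x y) ^ 2 := by
    rw [← Real.exp_add, h, ← exp_P0, Real.log_exp, ← Real.exp_add, ← Real.exp_nat_mul]
    congr 1
    push_cast
    ring
  unfold tau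
  linear_combination (bb a c * bb a' c') * h1

/-- **THE LATTICE EQUATION** inside -/
theorem tau_in (a c : ℕ) : tau (a + 2) (c + 1) * tau a (c + 1) + tau (a + 1) (c + 2) * tau (a + 1) c +
    tau (a + 2) c * tau a (c + 2) = 3 * tau (a + 1) (c + 1) ^ 2 := by
  have h1 : Ee (a + 2) (c + 1) + Ee a (c + 1) = 2 * Ee (a + 1) (c + 1) - Real.log P0 := by
    unfold Ee
    push_cast
    ring
  have h2 : Ee (a + 1) (c + 2) + Ee (a + 1) c = 2 * Ee (a + 1) (c + 1) - Real.log P0 := by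
    unfold Ee
    push_cast
    ring
  have h3 : Ee (a + 2) c + Ee a (c + 2) = 2 * Ee (a + 1) (c + 1) - Real.log P0 := by
    unfold Ee
    push_cast
    ring
  have k1 := tau_mul h1
  have k2 := tau_mul h2
  have k3 := tau_mul h3
  have k4 := bb_in a c
  have k5 := P0_mul
  have hP := P0_pos
  refine mul_left_cancel₀ hP.ne' ?_
  have k6 : tau (a + 1) (c + 1) ^ 2 = bb (a + 1) (c + 1) ^ 2 * Real.exp (Ee (a + 1) (c + 1)) ^ 2 := by
    unfold tau
    ring
  rw [k6, ← k4]
  linear_combination k1 + k2 + k3 - 3 * (bb (a + 2) (c + 1) * bb a (c + 1) +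
    bb (a + 1) (c + 2) * bb (a + 1) c + bb (a + 2) c * bb a (c + 2)) *
      Real.exp (Ee (a + 1) (c + 1)) ^ 2 * k5

theorem sin_sq_eq : Real.sin (Real.pi / 8) ^ 2 = (1 - sK) / 2 := by
  have h : 2 * (Real.pi / 8) = Real.pi / 4 := by ring
  have h1 := Real.sin_sq (Real.pi / 8)
  have h2 := Real.cos_sq (Real.pi / 8)
  rw [h, Real.cos_pi_div_four] at h2
  rw [h1, h2, sK]
  ring

theorem sin_eq' : Real.sin (Real.pi / 8) = (1 - sK) * Real.exp (Real.log (1 + sK) / 2) := by
  have h0 : 0 < 1 + sK := by linarith [sK_pos]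
  have h1 : Real.exp (Real.log (1 + sK) / 2) ^ 2 = 1 + sK := by
    rw [← Real.exp_nat_mul, show ((2 : ℕ) : ℝ) * (Real.log (1 + sK) / 2) = Real.log (1 + sK) by push_cast; ring,
      Real.exp_log h0]
  have h2 : 0 < Real.sin (Real.pi / 8) :=
    Real.sin_pos_of_pos_of_lt_pi (by positivity) (by linarith [Real.pi_pos])
  have h3 : 0 < (1 - sK) * Real.exp (Real.log (1 + sK) / 2) :=
    mul_pos (by linarith [sK_lt]) (Real.exp_pos _)
  have h4 : Real.sin (Real.pi / 8) ^ 2 = ((1 - sK) * Real.exp (Real.log (1 + sK) / 2)) ^ 2 := by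
    rw [mul_pow, h1, sin_sq_eq]
    linear_combination (1 - sK) * sK_sq
  exact (pow_left_inj₀ h2.le h3.le two_ne_zero).1 h4

/-- **THE LATTICE EQUATION** at the axis -/
theorem tau_ax (a : ℕ) : tau (a + 2) 0 * tau a 0 + 2 * (tau (a + 1) 1 * tau a 1) = 3 * tau (a + 1) 0 ^ 2 := by
  have h1 : Ee (a + 2) 0 + Ee a 0 = 2 * Ee (a + 1) 0 - Real.log P0 := by
    unfold Ee
    push_cast
    ring
  have k1 := tau_mul h1
  have h2 : P0 * (tau (a + 1) 1 * tau a 1) = bb (a + 1) 1 * bb a 1 * Real.exp (Ee (a + 1) 0) ^ 2 *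
      Real.exp (Real.log (1 + sK) / 2) := by
    have h3 : Real.exp (Ee (a + 1) 1) * Real.exp (Ee a 1) * P0 =
        Real.exp (Ee (a + 1) 0) ^ 2 * Real.exp (Real.log (1 + sK) / 2) := by
      rw [← Real.exp_add, ← exp_P0, ← Real.exp_nat_mul, ← Real.exp_add, ← Real.exp_add]
      congr 1
      unfold Ee
      push_cast
      ring
    unfold tau
    linear_combination (bb (a + 1) 1 * bb a 1) * h3
  have k4 := bb_ax a
  have k5 := P0_mul
  have k7 := sin_eq'
  refine mul_left_cancel₀ P0_pos.ne' ?_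
  have k6 : tau (a + 1) 0 ^ 2 = bb (a + 1) 0 ^ 2 * Real.exp (Ee (a + 1) 0) ^ 2 := by
    unfold tau
    ring
  rw [k6, ← k4, k7]
  linear_combination k1 + 2 * h2 - 3 * (bb (a + 2) 0 * bb a 0 +
    2 * Real.exp (Real.log (1 + sK) / 2) * (bb (a + 1) 1 * bb a 1)) * Real.exp (Ee (a + 1) 0) ^ 2 * k5

theorem tau_one_sq : tau 1 0 ^ 2 = 3 / 2 := by
  have h0 : 0 < 1 + sK := by linarith [sK_pos]
  have hP := P0_pos
  have h1 : Real.exp (Ee 1 0) ^ 2 = (1 + sK) / P0 := by
    rw [← Real.exp_nat_mul, show ((2 : ℕ) : ℝ) * Ee 1 0 = Real.log (1 + sK) - Real.log P0 by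
      unfold Ee; push_cast; ring, Real.exp_sub, Real.exp_log h0, Real.exp_log hP]
  unfold tau
  rw [bb_one, one_mul, h1, P0]
  field_simp

/-! ### other literal forms of the rows -/

open Pool.Agent.NUBD
open Pool.Agent.EXL.Fm (lam)

/-- the rows `(l/2) ^ a, (-l/2) ^ c` -/
theorem b_half (a c : ℕ) : b (List.replicate a (lam / 2) ++ List.replicate c (-(lam / 2))) = (bb a c : ℂ) := by
  rw [bb_symm, bb_coe, ← b_shift (lam / 2), List.map_append, List.map_replicate, List.map_replicate, rw0]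
  have e1 : lam / 2 + lam / 2 = lam := by ring
  have e2 : -(lam / 2) + lam / 2 = 0 := by ring
  rw [e1, e2]
  exact b_perm List.perm_append_comm

/-- any list of rows: `a` rows `x`, the others `x + l` -/
theorem BD_rows {ι : Type*} (z : ι → ℂ) (X : List ι) (x : ℂ) (a c : ℕ)
    (h : (X.map z).Perm (List.replicate a x ++ List.replicate c (x + lam))) : BD z X = (bb a c : ℂ) := by
  rw [← b_map, b_perm h, bb_coe, rw0, ← b_shift x (List.replicate a 0 ++ List.replicate c lam), List.map_append,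
    List.map_replicate, List.map_replicate, zero_add, add_comm x lam]

end Pool.Agent.NUT8
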